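import Pool.Agent.H63.PL2

set_option autoImplicit false

namespace Pool.Agent.Results.MP_54e6ab_lc.PlacNat

open Pool.Agent.H63.PL

theorem result : ¬ ComputablePred (Theory ℕ) :=
  undec (fun a => ⟨a + 1, Order.covBy_add_one a⟩) 0

end Pool.Agent.Results.MP_54e6ab_lc.PlacNat
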